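import Mathlib

namespace Pool.Agent.Results.MP_6c00f2_co.Counter

open Finset

/-- Distinct subsets have distinct sums. -/
def Dissoc {n : ℕ} (B : Finset (ZMod n)) : Prop :=
  ∀ S ⊆ B, ∀ T ⊆ B, ∑ x ∈ S, x = ∑ x ∈ T, x → S = T

/-- `d` is the dissociativity dimension of `A`. -/
def IsDim {n : ℕ} (A : Finset (ZMod n)) (d : ℕ) : Prop :=
  IsGreatest {k | ∃ B ⊆ A, Dissoc B ∧ B.card = k} d

theorem dis (a b c d : ZMod 17) (hn : a ≠ b ∧ a ≠ c ∧ a ≠ d ∧ b ≠ c ∧ b ≠ d ∧ c ≠ d)
    (h : ∀ p q r s p' q' r' s' : Bool, cond p a 0 + (cond q b 0 + (cond r c 0 + cond s d 0))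
      = cond p' a 0 + (cond q' b 0 + (cond r' c 0 + cond s' d 0)) →
      p = p' ∧ q = q' ∧ r = r' ∧ s = s') :
    Dissoc ({a, b, c, d} : Finset (ZMod 17)) := by
  have key : ∀ S ⊆ ({a, b, c, d} : Finset (ZMod 17)), ∑ x ∈ S, x = cond (decide (a ∈ S)) a 0 +
      (cond (decide (b ∈ S)) b 0 + (cond (decide (c ∈ S)) c 0 + cond (decide (d ∈ S)) d 0)) := by
    intro S hS
    have : ∑ x ∈ S, x = ∑ x ∈ ({a, b, c, d} : Finset (ZMod 17)), if x ∈ S then x else 0 := by
      rw [sum_ite_mem, inter_eq_right.2 hS]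
    rw [this, sum_insert (by simp [hn]), sum_insert (by simp [hn]), sum_insert (by simp [hn]),
      sum_singleton]
    simp only [Bool.cond_decide]
  intro S hS T hT e
  rw [key S hS, key T hT] at e
  have := h _ _ _ _ _ _ _ _ e
  simp only [decide_eq_decide] at this
  ext x
  by_cases hx : x ∈ ({a, b, c, d} : Finset (ZMod 17))
  · simp only [mem_insert, mem_singleton] at hx
    rcases hx with rfl | rfl | rfl | rfl <;> tauto
  · exact ⟨fun h => absurd (hS h) hx, fun h => absurd (hT h) hx⟩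

theorem result : ∃ n m : ℕ, 1 ≤ m ∧ m ≤ n ∧
    ∀ A : Finset (ZMod n), A.card = m → IsDim A (Nat.log 2 m + 1) := by
  refine ⟨17, 14, by norm_num, by norm_num, fun A hA => ?_⟩
  have e : Nat.log 2 14 + 1 = 4 := by norm_num
  rw [e]
  constructor
  · by_contra hc
    have key : ∀ B : Finset (ZMod 17), Dissoc B → B.card = 4 → 1 ≤ (B \ A).card := by
      intro B h1 h2
      rw [one_le_card, sdiff_nonempty]
      exact fun h => hc ⟨B, h, h1, h2⟩
    have k1 := key {1, 2, 4, 8} (dis _ _ _ _ (by decide +kernel) (by decide +kernel)) (by decide +kernel)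
    have k2 := key {3, 5, 6, 7} (dis _ _ _ _ (by decide +kernel) (by decide +kernel)) (by decide +kernel)
    have k3 := key {9, 13, 15, 16} (dis _ _ _ _ (by decide +kernel) (by decide +kernel)) (by decide +kernel)
    have k4 := key {10, 11, 12, 14} (dis _ _ _ _ (by decide +kernel) (by decide +kernel)) (by decide +kernel)
    have u : ∀ B C : Finset (ZMod 17), Disjoint B C →
        ((B ∪ C) \ A).card = (B \ A).card + (C \ A).card := by
      intro B C h
      rw [union_sdiff_distrib, card_union_of_disjoint (disjoint_of_subset_left sdiff_subset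
        (disjoint_of_subset_right sdiff_subset h))]
    have u1 := u {1, 2, 4, 8} {3, 5, 6, 7} (by decide +kernel)
    have u2 := u {9, 13, 15, 16} {10, 11, 12, 14} (by decide +kernel)
    have u3 := u ({1, 2, 4, 8} ∪ {3, 5, 6, 7}) ({9, 13, 15, 16} ∪ {10, 11, 12, 14}) (by decide +kernel)
    have u4 := card_le_card (sdiff_subset_sdiff (subset_univ (({1, 2, 4, 8} ∪ {3, 5, 6, 7}) ∪
      ({9, 13, 15, 16} ∪ {10, 11, 12, 14}) : Finset (ZMod 17))) (subset_refl A))
    rw [card_univ_sdiff, ZMod.card] at u4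
    omega
  · rintro k ⟨B, -, h1, rfl⟩
    have h2 : B.powerset.card ≤ (univ : Finset (ZMod 17)).card :=
      card_le_card_of_injOn (fun S => ∑ x ∈ S, x) (fun _ _ => mem_univ _)
        (fun S hS T hT h => h1 S (mem_powerset.1 hS) T (mem_powerset.1 hT) h)
    rw [card_powerset, card_univ, ZMod.card] at h2
    by_contra hc
    have : 2 ^ 5 ≤ 2 ^ B.card := Nat.pow_le_pow_right (by norm_num) (by omega)
    omega

end Pool.Agent.Results.MP_6c00f2_co.Counter
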